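import Pool.Agent.Y404.GccBounds

/-!
# The positive semidefinite graph complement conjecture for regular and nearly regular graphs
-/

set_option autoImplicit false

namespace Pool.Agent.Results.MP_a2d8aa_co.NearlyRegular

open Pool.Agent.Y404.GccSap Pool.Agent.Y404.GccBounds

/-- `A ∈ S₊(G)`: a real positive semidefinite matrix whose off-diagonal nonzero pattern is exactly
the edge set of `G`; the diagonal is unrestricted. -/
def InSPlus {n : ℕ} (G : SimpleGraph (Fin n)) (A : Matrix (Fin n) (Fin n) ℝ) : Prop :=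
  A.PosSemidef ∧ ∀ i j : Fin n, i ≠ j → (A i j ≠ 0 ↔ G.Adj i j)

/-- The Strong Arnold Property of a matrix with respect to `G`: the only symmetric matrix `X` with
`A X = 0` that vanishes on the diagonal and on the edges of `G` is `X = 0`. -/
def StrongArnold {n : ℕ} (G : SimpleGraph (Fin n)) (A : Matrix (Fin n) (Fin n) ℝ) : Prop :=
  ∀ X : Matrix (Fin n) (Fin n) ℝ, X.IsSymm → (∀ i j : Fin n, (i = j ∨ G.Adj i j) → X i j = 0) →
    A * X = 0 → X = 0

/-- The positive semidefinite minimum rank `mr₊(G)`. -/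
noncomputable def mrPlus {n : ℕ} (G : SimpleGraph (Fin n)) : ℕ :=
  sInf {k : ℕ | ∃ A : Matrix (Fin n) (Fin n) ℝ, InSPlus G A ∧ A.rank = k}

open Classical in
/-- If `G[S]` has minimum degree at least `a` and the complement of `G` induces on `T` a graph of
minimum degree at least `b`, then the two minimum ranks (even with the Strong Arnold Property) have
sum at most `2n - a - b`. -/
theorem cores {n : ℕ} (G : SimpleGraph (Fin n)) (S T : Finset (Fin n)) (a b : ℕ)
    (hS : S.Nonempty) (hT : T.Nonempty)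
    (ha : ∀ x ∈ S, a ≤ (S.filter fun y => G.Adj x y).card)
    (hb : ∀ x ∈ T, b ≤ (T.filter fun y => Gᶜ.Adj x y).card) :
    ∃ A B : Matrix (Fin n) (Fin n) ℝ, InSPlus G A ∧ StrongArnold G A ∧ InSPlus Gᶜ B ∧
      StrongArnold Gᶜ B ∧ A.rank + B.rank + a + b ≤ 2 * n := by
  obtain ⟨⟨A, h1, h2, h3, h4⟩, h5⟩ := core_sap (Fin n) G S a hS (by
    intro x hx
    convert ha x hx)
  obtain ⟨⟨B, k1, k2, k3, k4⟩, k5⟩ := core_sap (Fin n) Gᶜ T b hT (by
    intro x hx
    convert hb x hx)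
  rw [Fintype.card_fin] at h4 h5 k4 k5
  exact ⟨A, B, ⟨h1, h2⟩, h3, ⟨k1, k2⟩, k3, by omega⟩

open Classical in
/-- The degree form. -/
theorem degrees {n : ℕ} (G : SimpleGraph (Fin n)) (d m : ℕ)
    (hd : ∀ x, d ≤ G.degree x ∧ G.degree x ≤ d + m) :
    ∃ A B : Matrix (Fin n) (Fin n) ℝ, InSPlus G A ∧ StrongArnold G A ∧ InSPlus Gᶜ B ∧
      StrongArnold Gᶜ B ∧ A.rank + B.rank ≤ n + 1 + m := by
  rcases Nat.eq_zero_or_pos n with h0 | hn
  · subst h0
    refine ⟨0, 0, ⟨Matrix.PosSemidef.zero, fun i => i.elim0⟩, fun X _ _ _ => ?_,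
      ⟨Matrix.PosSemidef.zero, fun i => i.elim0⟩, fun X _ _ _ => ?_, ?_⟩
    · ext i; exact i.elim0
    · ext i; exact i.elim0
    · rw [Matrix.rank_zero]; omega
  · have hne : (Finset.univ : Finset (Fin n)).Nonempty := ⟨⟨0, hn⟩, Finset.mem_univ _⟩
    have hlt : ∀ x, G.degree x < n := fun x => by
      simpa using G.degree_lt_card_verts x
    obtain ⟨A, B, h1, h2, h3, h4, h5⟩ := cores G Finset.univ Finset.univ d (n - 1 - (d + m)) hne hne
      (fun x _ => by
        have h := (hd x).1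
        rw [← SimpleGraph.card_neighborFinset_eq_degree, SimpleGraph.neighborFinset_eq_filter] at h
        convert h)
      (fun x _ => by
        have h : Gᶜ.degree x = n - 1 - G.degree x := by
          rw [SimpleGraph.degree_compl, Fintype.card_fin]
        have h' := (hd x).2
        have h'' : n - 1 - (d + m) ≤ Gᶜ.degree x := by omega
        rw [← SimpleGraph.card_neighborFinset_eq_degree,
          SimpleGraph.neighborFinset_eq_filter] at h''
        convert h'')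
    have := hlt ⟨0, hn⟩
    have := hd ⟨0, hn⟩
    exact ⟨A, B, h1, h2, h3, h4, by omega⟩

theorem mrPlus_add_le {n : ℕ} {G : SimpleGraph (Fin n)} {c : ℕ}
    (h : ∃ A B : Matrix (Fin n) (Fin n) ℝ, InSPlus G A ∧ StrongArnold G A ∧ InSPlus Gᶜ B ∧
      StrongArnold Gᶜ B ∧ A.rank + B.rank ≤ c) : mrPlus G + mrPlus Gᶜ ≤ c := by
  obtain ⟨A, B, h1, _, h3, _, h5⟩ := h
  have e1 : mrPlus G ≤ A.rank := Nat.sInf_le ⟨A, h1, rfl⟩
  have e2 : mrPlus Gᶜ ≤ B.rank := Nat.sInf_le ⟨B, h3, rfl⟩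
  omega

open Classical in
/-- For every graph `G` on `n` vertices: (1) if `G[S]` has minimum degree at least `a` and
`Gᶜ[T]` has minimum degree at least `b`, then `mr₊(G) + mr₊(Ḡ) ≤ 2n - a - b`, even with matrices
having the Strong Arnold Property; (2) `mr₊(G) + mr₊(Ḡ) ≤ n + 1` if `G` is regular and
`mr₊(G) + mr₊(Ḡ) ≤ n + 2` if all degrees lie in `{d, d + 1}`. -/
theorem result (n : ℕ) (G : SimpleGraph (Fin n)) :
    (∀ (S T : Finset (Fin n)) (a b : ℕ), S.Nonempty → T.Nonempty →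
      (∀ x ∈ S, a ≤ (S.filter fun y => G.Adj x y).card) →
      (∀ x ∈ T, b ≤ (T.filter fun y => Gᶜ.Adj x y).card) →
      ∃ A B : Matrix (Fin n) (Fin n) ℝ, InSPlus G A ∧ StrongArnold G A ∧ InSPlus Gᶜ B ∧
        StrongArnold Gᶜ B ∧ A.rank + B.rank + a + b ≤ 2 * n) ∧
    (∀ d : ℕ, (∀ x, G.degree x = d) → mrPlus G + mrPlus Gᶜ ≤ n + 1) ∧
    (∀ d : ℕ, (∀ x, d ≤ G.degree x ∧ G.degree x ≤ d + 1) → mrPlus G + mrPlus Gᶜ ≤ n + 2) := by
  refine ⟨fun S T a b hS hT ha hb => cores G S T a b hS hT ha hb, fun d hd => ?_, fun d hd => ?_⟩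
  · exact mrPlus_add_le (degrees G d 0 fun x => ⟨(hd x).ge, (hd x).le⟩)
  · exact mrPlus_add_le (degrees G d 1 hd)

end Pool.Agent.Results.MP_a2d8aa_co.NearlyRegular
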